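import Pool.Agent.helper3.XT.Spec

set_option autoImplicit false

namespace Pool.Agent.XT

open Finset SimpleGraph

open Classical in
theorem DNS_count {n : ℕ} (B : FS n) :
    ∑ e ∈ RobS B, (dP B e.2).card = ∑ z : Fin n × Fin n, (Tset B z.1 z.2).card := by
  have h1 : ∑ e ∈ RobS B, (dP B e.2).card =
      ∑ x : Fin n, ∑ y : Fin n, ∑ c : Fin n, (if ((y, c) ∈ B ∧ Rob B x y) then 1 else 0) := by
    unfold RobS
    rw [Finset.sum_filter, Fintype.sum_prod_type]
    refine Finset.sum_congr rfl fun x _ => Finset.sum_congr rfl fun y _ => ?_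
    by_cases h : Rob B x y
    · rw [if_pos h]
      unfold dP
      rw [Finset.card_filter]
      refine Finset.sum_congr rfl fun c _ => ?_
      by_cases hc : (y, c) ∈ B
      · rw [if_pos hc, if_pos ⟨hc, h⟩]
      · rw [if_neg hc, if_neg (fun h' => hc h'.1)]
    · rw [if_neg h]
      symm
      refine Finset.sum_eq_zero fun c _ => ?_
      rw [if_neg (fun h' => h h'.2)]
  have h2 : ∑ z : Fin n × Fin n, (Tset B z.1 z.2).card =
      ∑ c : Fin n, ∑ x : Fin n, ∑ y : Fin n, (if ((y, c) ∈ B ∧ Rob B x y) then 1 else 0) := by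
    rw [Fintype.sum_prod_type]
    refine Finset.sum_congr rfl fun c _ => Finset.sum_congr rfl fun x _ => ?_
    unfold Tset
    rw [Finset.card_filter]
  rw [h1, h2]
  calc ∑ x : Fin n, ∑ y : Fin n, ∑ c : Fin n, (if ((y, c) ∈ B ∧ Rob B x y) then 1 else 0)
      = ∑ x : Fin n, ∑ c : Fin n, ∑ y : Fin n, (if ((y, c) ∈ B ∧ Rob B x y) then 1 else 0) :=
        Finset.sum_congr rfl fun x _ => Finset.sum_comm
    _ = ∑ c : Fin n, ∑ x : Fin n, ∑ y : Fin n, (if ((y, c) ∈ B ∧ Rob B x y) then 1 else 0) := Finset.sum_comm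

theorem DNS (hPCK : PCK_stmt) (hFNM : FNM_stmt) (hCFB : CFB_stmt) (hGAD : GAD_stmt) : DNS_stmt := by
  classical
  intro κ hκ
  refine ⟨(500 + 20 / κ) / κ, by positivity, ?_⟩
  intro n D B hH hR
  have hn : (0 : ℝ) < n := by exact_mod_cast hH.n0
  have hD := hH.d0
  obtain ⟨T, hT⟩ : ∃ T : FS n, T = Finset.univ.filter (fun z => TT B z.1 z.2) := ⟨_, rfl⟩
  -- lower bound
  have h1 : κ * D * ((RobS B).card : ℝ) ≤ ∑ e ∈ RobS B, ((dP B e.2).card : ℝ) := by
    have h2 : ∀ e ∈ RobS B, κ * D ≤ ((dP B e.2).card : ℝ) := by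
      intro e he
      unfold RobS at he
      rw [mem_filter] at he
      obtain ⟨W, hW, hWG, _⟩ := he.2
      obtain ⟨S, hS⟩ : W.Nonempty := by
        rw [← Finset.card_pos]
        omega
      obtain ⟨l, hl⟩ := (hGAD n B e.1 e.2 S (hWG S hS)).2.2.2.2.2.2.1
      exact hH.pl _ _ hl
    calc κ * D * ((RobS B).card : ℝ) = ∑ e ∈ RobS B, κ * D := by
          rw [Finset.sum_const, nsmul_eq_mul]
          ring
      _ ≤ _ := Finset.sum_le_sum h2
  have h3 : ∑ e ∈ RobS B, ((dP B e.2).card : ℝ) = ∑ z : Fin n × Fin n, ((Tset B z.1 z.2).card : ℝ) := by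
    exact_mod_cast DNS_count B
  -- upper bound
  have h4 : ∑ z : Fin n × Fin n, ((Tset B z.1 z.2).card : ℝ) ≤ D * (T.card : ℝ) + 500 * (n : ℝ) ^ 2 := by
    have h5 : ∀ z : Fin n × Fin n, ((Tset B z.1 z.2).card : ℝ) ≤ (if z ∈ T then D else 0) + 500 := by
      intro z
      by_cases hz : z ∈ T
      · rw [if_pos hz]
        have h6 : (Tset B z.1 z.2).card ≤ (dL B z.1).card := by
          refine Finset.card_le_card fun y hy => ?_
          unfold Tset at hy
          unfold dL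
          rw [mem_filter] at hy ⊢
          exact ⟨mem_univ _, hy.2.1⟩
        have h7 : ((Tset B z.1 z.2).card : ℝ) ≤ ((dL B z.1).card : ℝ) := by exact_mod_cast h6
        have h8 := hH.lu z.1
        linarith
      · rw [if_neg hz]
        have h6 : (Tset B z.1 z.2).card < 500 := by
          by_contra h9
          rw [not_lt] at h9
          apply hz
          rw [hT, mem_filter]
          exact ⟨mem_univ _, h9⟩
        have h7 : ((Tset B z.1 z.2).card : ℝ) ≤ 500 := by exact_mod_cast h6.le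
        linarith
    calc ∑ z : Fin n × Fin n, ((Tset B z.1 z.2).card : ℝ)
        ≤ ∑ z : Fin n × Fin n, ((if z ∈ T then D else 0) + 500) := Finset.sum_le_sum fun z _ => h5 z
      _ = D * (T.card : ℝ) + 500 * (n : ℝ) ^ 2 := by
          rw [Finset.sum_add_distrib, Finset.sum_ite_mem, Finset.univ_inter, Finset.sum_const, Finset.sum_const,
            nsmul_eq_mul, nsmul_eq_mul, Finset.card_univ, Fintype.card_prod, Fintype.card_fin]
          push_cast
          ring
  have h10 : (20 / κ) * (n : ℝ) ^ 2 ≤ D * (T.card : ℝ) := by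
    have h11 : κ * ((500 + 20 / κ) / κ * (n : ℝ) ^ 2) ≤ κ * (D * ((RobS B).card : ℝ)) :=
      mul_le_mul_of_nonneg_left hR hκ.le
    have h12 : κ * ((500 + 20 / κ) / κ * (n : ℝ) ^ 2) = (500 + 20 / κ) * (n : ℝ) ^ 2 := by
      field_simp
    rw [h12] at h11
    linarith
  have h13 := hCFB κ D n B hκ hH
  have h14 : 135 * n ^ 3 < T.card ^ 2 := by
    have h15 : ((20 / κ) * (n : ℝ) ^ 2) ^ 2 ≤ (D * (T.card : ℝ)) ^ 2 := pow_le_pow_left₀ (by positivity) h10 2
    have h16 : 400 * (n : ℝ) ^ 4 ≤ (κ ^ 2 * D ^ 2) * (T.card : ℝ) ^ 2 := by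
      have e1 : κ ^ 2 * ((20 / κ) * (n : ℝ) ^ 2) ^ 2 = 400 * (n : ℝ) ^ 4 := by
        field_simp
        ring
      have e2 : κ ^ 2 * (D * (T.card : ℝ)) ^ 2 = (κ ^ 2 * D ^ 2) * (T.card : ℝ) ^ 2 := by ring
      rw [← e1, ← e2]
      exact mul_le_mul_of_nonneg_left h15 (by positivity)
    have h17 : 400 * (n : ℝ) ^ 4 ≤ (2 * n) * (T.card : ℝ) ^ 2 :=
      h16.trans (mul_le_mul_of_nonneg_right h13 (by positivity))
    have h18 : 200 * (n : ℝ) ^ 3 ≤ (T.card : ℝ) ^ 2 := by
      have h19 : (2 * (n : ℝ)) * (200 * (n : ℝ) ^ 3) ≤ (2 * n) * (T.card : ℝ) ^ 2 := by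
        have : (2 * (n : ℝ)) * (200 * (n : ℝ) ^ 3) = 400 * (n : ℝ) ^ 4 := by ring
        rw [this]
        exact h17
      exact le_of_mul_le_mul_left h19 (by positivity)
    have h20 : 200 * n ^ 3 ≤ T.card ^ 2 := by exact_mod_cast h18
    have h21 : 0 < n ^ 3 := pow_pos hH.n0 3
    omega
  obtain ⟨a, b, x, hab, hx, hTT⟩ := hPCK n T h14
  have hmem : ∀ c y, (c, y) ∈ T → TT B c y := by
    intro c y h
    rw [hT, mem_filter] at h
    exact h.2
  exact hFNM n B a b x hab hx (fun i j => hmem _ _ (hTT i j).1) (fun i j => hmem _ _ (hTT i j).2)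

end Pool.Agent.XT
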